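import Pool.Agent.Helper94.LG.Sheet3
open MeasureTheory Metric Set Filter Topology
open scoped ENNReal NNReal

namespace H11ST
namespace LG

open scoped Classical in
theorem gqn_eq_count {d n : ℕ} (y : E d) (t : BT (Fin n) (E d)) : gqn y t = t.nodes.count y := by
  induction t with
  | leaf i => rfl
  | node z l r hl hr =>
    simp only [gqn, BT.nodes, List.count_cons, List.count_append, hl, hr, beq_iff_eq]
    split_ifs <;> omega

open scoped Classical in
theorem gnin_eq_length {d n : ℕ} (t : BT (Fin n) (E d)) :
    gnin t = ((t.nodes.filter (fun z => decide (‖z‖ < 1 / 2))).length : ℝ) := by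
  unfold gnin
  induction t with
  | leaf i => simp [BT.nsum, BT.nodes]
  | node z l r hl hr =>
    simp only [BT.nsum, BT.nodes, List.filter_cons, List.filter_append, hl, hr]
    by_cases h : ‖z‖ < 1 / 2
    · simp only [h, decide_true, if_true, List.length_cons, List.length_append]
      push_cast; ring
    · simp only [h, decide_false, if_false]
      push_cast
      simp

theorem ex_cnt5 : EX_CNT5 := by
  classical
  intro h d n p i0 hd hp t hadm hμ m hm
  have hq := h d n p i0 hd hp t hadm hμ
  obtain ⟨l, hl⟩ : ∃ l, l = t.nodes.filter (fun z => decide (‖z‖ < 1 / 2)) := ⟨_, rfl⟩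
  have hcnt : ∀ y ∈ l, ‖y‖ < 1 / 2 ∧ 1 ≤ gqn y t := by
    intro y hy
    rw [hl, List.mem_filter, decide_eq_true_eq] at hy
    refine ⟨hy.2, ?_⟩
    rw [gqn_eq_count]
    exact List.count_pos_iff.mpr hy.1
  have hnd : l.Nodup := by
    rw [List.nodup_iff_count_le_one]
    intro y
    by_cases hy : y ∈ l
    · obtain ⟨h1, h2⟩ := hcnt y hy
      have h3 := (hq y h1 h2).1
      rw [gqn_eq_count] at h3
      calc l.count y ≤ t.nodes.count y := by
            rw [hl]; exact List.Sublist.count_le _ List.filter_sublist
        _ ≤ 1 := h3.le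
    · rw [List.count_eq_zero_of_not_mem hy]; exact zero_le_one
  have hlen : m ≤ l.length := by
    rw [gnin_eq_length, ← hl] at hm
    exact_mod_cast hm
  refine le_N hadm (m := (m : ℕ∞)) ?_
  have hsub : (l.toFinset : Set (E d)) ⊆
      {y ∈ ball (0 : E d) (1 / 2 * 1) | IsBranchingPoint (range p) (gset p i0 t) y} := by
    intro y hy
    rw [Finset.mem_coe, List.mem_toFinset] at hy
    obtain ⟨h1, h2⟩ := hcnt y hy
    refine ⟨?_, (hq y h1 h2).2⟩
    rw [mem_ball_zero_iff, mul_one]
    exact h1
  refine le_trans ?_ (encard_le_encard hsub)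
  rw [encard_coe_eq_coe_finsetCard, List.toFinset_card_of_nodup hnd]
  exact_mod_cast hlen

end LG
end H11ST
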