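import Pool.Agent.Helper94.LG.Sheet
open MeasureTheory Metric Set Filter Topology
open scoped ENNReal NNReal

namespace H11ST
namespace LG

/-- the simplex is closed -/
theorem dl_closed (d : ℕ) : IsClosed (Dl d) := by
  have h : Dl d = (⋂ k : Fin d, {y : E d | 0 ≤ y k}) ∩ {y : E d | ∑ k, y k = 1} := by
    ext y; simp [Dl]
  rw [h]
  refine (isClosed_iInter fun k => ?_).inter ?_
  · exact isClosed_le continuous_const (by fun_prop)
  · exact isClosed_eq (by fun_prop) continuous_const

/-- the simplex is convex -/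
theorem dl_convex (d : ℕ) : Convex ℝ (Dl d) := by
  intro x hx y hy a b ha hb hab
  refine ⟨fun k => ?_, ?_⟩
  · have h1 := hx.1 k
    have h2 := hy.1 k
    simp only [PiLp.add_apply, PiLp.smul_apply, smul_eq_mul]
    positivity
  · simp only [PiLp.add_apply, PiLp.smul_apply, smul_eq_mul]
    rw [Finset.sum_add_distrib, ← Finset.mul_sum, ← Finset.mul_sum, hx.2, hy.2]
    linarith

theorem tm_mem_dl (d : ℕ) (i : Fin d) : tm d i ∈ Dl d := by
  refine ⟨fun k => ?_, ?_⟩
  · simp only [tm, EuclideanSpace.single, PiLp.single_apply]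
    split_ifs <;> norm_num
  · simp [tm]

/-- the metric projection onto the simplex -/
theorem exists_proj (d : ℕ) (i0 : Fin d) : ∃ g : E d → E d, (∀ y, g y ∈ Dl d) ∧
    (∀ y ∈ Dl d, g y = y) ∧ ∀ a b, dist (g a) (g b) ≤ dist a b := by
  have hex : ∀ y : E d, ∃ v ∈ Dl d, ∀ w ∈ Dl d, inner ℝ (y - v) (w - v) ≤ 0 := by
    intro y
    obtain ⟨v, hv, h⟩ := exists_norm_eq_iInf_of_complete_convex ⟨tm d i0, tm_mem_dl d i0⟩
      (dl_closed d).isComplete (dl_convex d) y
    exact ⟨v, hv, (norm_eq_iInf_iff_real_inner_le_zero (dl_convex d) hv).mp h⟩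
  choose g hg1 hg2 using hex
  refine ⟨g, hg1, ?_, ?_⟩
  · intro y hy
    have h := hg2 y y hy
    rw [real_inner_self_nonpos] at h
    exact (sub_eq_zero.mp h).symm
  · intro a b
    have h1 := hg2 a (g b) (hg1 b)
    have h2 := hg2 b (g a) (hg1 a)
    have h3 : ‖g a - g b‖ ^ 2 ≤ inner ℝ (a - b) (g a - g b) := by
      rw [← real_inner_self_eq_norm_sq]
      have e1 : inner ℝ (a - g a) (g b - g a) = - inner ℝ (a - g a) (g a - g b) := by
        rw [← inner_neg_right, neg_sub]
      have e2 : inner ℝ (a - b) (g a - g b) = inner ℝ (a - g a) (g a - g b) +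
          inner ℝ (g a - g b) (g a - g b) - inner ℝ (b - g b) (g a - g b) := by
        rw [← inner_add_left, ← inner_sub_left]
        congr 1
        abel
      rw [e1] at h1
      linarith
    have h4 : inner ℝ (a - b) (g a - g b) ≤ ‖a - b‖ * ‖g a - g b‖ := real_inner_le_norm _ _
    rw [dist_eq_norm, dist_eq_norm]
    rcases eq_or_lt_of_le (norm_nonneg (g a - g b)) with h0 | h0
    · rw [← h0]; exact norm_nonneg _
    · have h5 : ‖g a - g b‖ * ‖g a - g b‖ ≤ ‖a - b‖ * ‖g a - g b‖ := by
        rw [← sq]; linarith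
      exact le_of_mul_le_mul_right h5 h0

theorem lv_map {d : ℕ} (g : E d → E d) (t : BT (Fin d) (E d)) : (t.map g).lv = t.lv := by
  induction t with
  | leaf i => rfl
  | node z l r hl hr => simp only [BT.map, BT.lv, hl, hr]

theorem ok_map {d : ℕ} (g : E d → E d) (t : BT (Fin d) (E d)) (h : t.ok) : (t.map g).ok := by
  induction t with
  | leaf i => trivial
  | node z l r hl hr =>
    obtain ⟨h1, h2, h3⟩ := h
    refine ⟨hl h1, hr h2, ?_⟩
    rw [lv_map, lv_map]; exact h3

theorem pos_map {d : ℕ} (g : E d → E d) (p : Fin d → E d) (hp : ∀ i, g (p i) = p i)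
    (t : BT (Fin d) (E d)) : (t.map g).pos p = g (t.pos p) := by
  cases t with
  | leaf i => exact (hp i).symm
  | node z l r => rfl

theorem nodes_map {d : ℕ} (g : E d → E d) (t : BT (Fin d) (E d)) :
    (t.map g).nodes = t.nodes.map g := by
  induction t with
  | leaf i => rfl
  | node z l r hl hr => simp only [BT.map, BT.nodes, hl, hr, List.map_cons, List.map_append]

theorem esum_map {d : ℕ} (g : E d → E d) (p : Fin d → E d) (hp : ∀ i, g (p i) = p i)
    (hg : ∀ a b, dist (g a) (g b) ≤ dist a b) (t : BT (Fin d) (E d)) :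
    (t.map g).esum p dist ≤ t.esum p dist := by
  induction t with
  | leaf i => exact le_rfl
  | node z l r hl hr =>
    simp only [BT.map, BT.esum]
    rw [pos_map g p hp l, pos_map g p hp r]
    have h1 := hg z (l.pos p)
    have h2 := hg z (r.pos p)
    linarith

theorem prj : LG_PRJ := by
  intro d i0 t ht
  obtain ⟨g, hg1, hg2, hg3⟩ := exists_proj d i0
  have hp : ∀ i, g (tm d i) = tm d i := fun i => hg2 _ (tm_mem_dl d i)
  refine ⟨t.map g, ⟨ok_map g t ht.1, (lv_map g t).trans ht.2⟩, ?_, ?_⟩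
  · intro z hz
    rw [nodes_map, List.mem_map] at hz
    obtain ⟨y, -, rfl⟩ := hz
    exact hg1 y
  · unfold tot
    rw [pos_map g (tm d) hp t]
    have h1 := hg3 (tm d i0) (t.pos (tm d))
    rw [hp i0] at h1
    have h2 := esum_map g (tm d) hp hg3 t
    linarith

end LG
end H11ST
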